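import Pool.Agent.Lib.MP_27c522_an.Final

set_option autoImplicit false

namespace Pool.Agent.Results.MP_27c522_an.OddTwoZeros

/-- For every odd `n ≥ 3` the polynomial `p_n(z) = ∑_{k=0}^n (-1)^k (2k+1) z^{k(k+1)}` has exactly
two real zeros; they are simple, and of the form `x`, `-x` with `0 < x < 1`. -/
theorem result : ∀ n : ℕ, Odd n → 3 ≤ n →
    {y : ℝ | ∑ k ∈ Finset.range (n + 1),
      (-1 : ℝ) ^ k * (2 * (k : ℝ) + 1) * y ^ (k * (k + 1)) = 0}.ncard = 2 ∧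
    ∃ x : ℝ, 0 < x ∧ x < 1 ∧
      (∑ k ∈ Finset.range (n + 1), Polynomial.C ((-1 : ℝ) ^ k * (2 * (k : ℝ) + 1)) *
        Polynomial.X ^ (k * (k + 1))).roots = {x, -x} :=
  Pool.Agent.Lib.MP_27c522_an.odd_two_zeros'

end Pool.Agent.Results.MP_27c522_an.OddTwoZeros
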